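import Pool.Agent.helper987_SE.All
import Pool.Agent.helper987_SE.A1
import Pool.Agent.helper987_SE.A2
import Pool.Agent.helper987_SE.A3
import Pool.Agent.helper987_SE.A4
import Pool.Agent.helper987_SE.B1
import Pool.Agent.helper987_SE.B2
import Pool.Agent.helper987_SE.B3
import Pool.Agent.helper987_SE.B4
import Pool.Agent.helper987_SE.B5
import Pool.Agent.helper987_SE.B6
import Pool.Agent.helper987_SE.B7
import Pool.Agent.helper987_SE.B8
import Pool.Agent.helper987_SE.B9
import Pool.Agent.helper987_SE.B10
import Pool.Agent.helper987_SE.C1
import Pool.Agent.helper987_SE.C2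
import Pool.Agent.helper987_SE.C3
import Pool.Agent.helper987_SE.C4
import Pool.Agent.helper987_SE.C5
import Pool.Agent.helper987_SE.C6
import Pool.Agent.helper987_SE.C7
import Pool.Agent.helper987_SE.D1
import Pool.Agent.helper987_SE.D3
import Pool.Agent.helper987_SE.D4
import Pool.Agent.helper987_SE.E2
import Pool.Agent.helper987_SE.F1
import Pool.Agent.helper987_SE.F2
import Pool.Agent.helper987_SE.F3
import Pool.Agent.Helper536_UC.Red

/-!
# MP_1644eb_al: a non-sofic group with a sofic unlabelled Cayley graph

Negative answer to Q1.  There are a finitely generated group `Γ` which is not sofic and a finite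
symmetric generating set `S` of `Γ`, `1 ∉ S`, such that the unlabelled Cayley graph of `(Γ, S)` is
a local (Benjamini–Schramm) limit of finite simple graphs.

The group is an extension of a sofic group `Q` by a central subgroup `N` of order two which is not
sofic (MP_67b2ac_al).  If `S` together with `1` is a union of cosets of `N`, then the unlabelled
Cayley graph of `(Γ, S)` does not depend on the extension: it is the one of `Q × ℤ/2`.
-/

set_option autoImplicit false

namespace Pool.Agent.Results.MP_1644eb_al.UnlabelledCayley

open Pool.Agent Pool.Agent.Helper536_UC

/-- There are a group `Γ`, a finite symmetric generating set `S` of `Γ` not containing `1`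
(`GenSet S`) such that `Γ` is not sofic (`Sofic Γ` is the definition of the problem file by
labelled directed graphs) although `δ_[Cay(Γ,S),1]` is the weak limit of the laws of a sequence
of finite simple graphs. -/
theorem result : ∃ (Γ : Type) (_ : Group Γ) (S : Finset Γ),
    GenSet S ∧ ¬ Sofic Γ ∧ LocalLimit (cay S) 1 :=
  main_of (helper987_SE.assembly helper987_SE.A1.main helper987_SE.A2.main helper987_SE.A3.main
    helper987_SE.A4.main helper987_SE.B1.main helper987_SE.B2.main helper987_SE.B3.main
    helper987_SE.B4.main helper987_SE.B5.main helper987_SE.B6.main helper987_SE.B7.main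
    helper987_SE.B8.main helper987_SE.B9.main helper987_SE.B10.main helper987_SE.C1.main
    helper987_SE.C2.main helper987_SE.C3.main helper987_SE.C4.main helper987_SE.C5.main
    helper987_SE.C6.main helper987_SE.C7.main helper987_SE.D1.main helper987_SE.D3.main
    helper987_SE.D4.main helper987_SE.E2.main helper987_SE.F1.main helper987_SE.F2.main
    helper987_SE.F3.main)

end Pool.Agent.Results.MP_1644eb_al.UnlabelledCayley
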